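import Pool.Agent.Q285.EX.Apx

/-! Project EX, job NCG: a character which kills the divisors of the totally positive elements prime
to `N` comes from the narrow class group. -/

set_option autoImplicit false
set_option linter.unusedSectionVars false
set_option linter.deprecated false

namespace Pool.Agent.Q285.EX

open NumberField IsDedekindDomain Pool.Agent.Q5.BR Pool.Agent.Q92.AR Pool.Agent.Q20.EX

section
variable {F : Type} [Field F] [NumberField F]

/-- totally positive elements with given orders at finitely many primes -/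
theorem exists_val (T : Finset (HeightOneSpectrum (𝓞 F))) (D : Dv F) :
    ∃ y : Fˣ, Pos (y : F) ∧ ∀ v ∈ T, prin y v = D v := by
  classical
  choose π hπ using fun v : HeightOneSpectrum (𝓞 F) => v.valuation_exists_uniformizer F
  obtain ⟨y, hy, hya⟩ := approx T (fun v => π v ^ (D v)) (∑ v ∈ T, (D v).natAbs + 1)
  refine ⟨y, hy, fun v hv => ?_⟩
  have h1 : v.valuation F (π v ^ (D v)) = WithZero.exp (-(D v)) := by
    rw [map_zpow₀, hπ v, ← WithZero.exp_zsmul]
    simp
  have h2 := hya v hv
  have h3 : (D v).natAbs ≤ ∑ v ∈ T, (D v).natAbs :=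
    Finset.single_le_sum (f := fun v => (D v).natAbs) (fun _ _ => Nat.zero_le _) hv
  have h4 : v.valuation F ((y : F) - π v ^ (D v)) < v.valuation F (π v ^ (D v)) := by
    refine h2.trans_lt ?_
    rw [h1, WithZero.exp_lt_exp]
    push_cast
    have h5 : ((D v).natAbs : ℤ) ≤ ∑ v ∈ T, ((D v).natAbs : ℤ) := by exact_mod_cast h3
    have h6 : D v ≤ ((D v).natAbs : ℤ) := Int.le_natAbs
    simp only [Int.natCast_natAbs] at h5 h6 ⊢
    omega
  have h5 := Valuation.map_add_eq_of_lt_right (v.valuation F) h4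
  rw [sub_add_cancel, h1, Pool.Agent.Q125.AR.valuation_eq_exp] at h5
  have h6 := WithZero.exp_injective h5
  omega

theorem val_one_of_prin {x : Fˣ} {v : HeightOneSpectrum (𝓞 F)} (h : prin x v = 0) :
    v.valuation F (x : F) = 1 := by
  rw [Pool.Agent.Q125.AR.valuation_eq_exp, h, neg_zero, WithZero.exp_zero]

theorem pos_div {x y : Fˣ} (hx : Pos (x : F)) (hy : Pos (y : F)) : Pos ((x / y : Fˣ) : F) := by
  intro φ
  rw [Units.val_div_eq_div_val, map_div₀]
  exact div_pos (hx φ) (hy φ)

theorem pos_mul {x y : Fˣ} (hx : Pos (x : F)) (hy : Pos (y : F)) : Pos ((x * y : Fˣ) : F) := by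
  intro φ
  rw [Units.val_mul, map_mul]
  exact mul_pos (hx φ) (hy φ)

end

/-- **job NCG** -/
theorem ncg : S_NCG := by
  intro F _ _ N χ hN hχ
  choose y hy hyD using fun D : Dv F => exists_val (pN F N hN) D
  have hPr : ∀ D : Dv F, D - prin (y D) ∈ Pr F N := by
    intro D v hv
    rw [Finsupp.sub_apply, hyD D v ((mem_pN hN v).2 hv), sub_self]
  have key : ∀ (D : Dv F) (y1 y2 : Fˣ), Pos (y1 : F) → Pos (y2 : F) → D - prin y1 ∈ Pr F N →
      D - prin y2 ∈ Pr F N → χ (D - prin y1) = χ (D - prin y2) := by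
    intro D y1 y2 h1 h2 h3 h4
    rw [← sub_eq_zero, ← map_sub]
    have e1 : D - prin y1 - (D - prin y2) = prin (y2 / y1) := by
      rw [prin_div]; abel
    rw [e1]
    refine hχ (y2 / y1) ?_ (pos_div h2 h1) (fun v hv _ => absurd (Set.mem_univ v) hv)
    intro v hv
    apply val_one_of_prin
    rw [prin_div, Finsupp.sub_apply]
    have h5 := h3 v hv
    have h6 := h4 v hv
    rw [Finsupp.sub_apply] at h5 h6
    omega
  refine ⟨AddMonoidHom.mk' (fun D => χ (D - prin (y D))) ?_, ?_, ?_⟩
  · intro D D'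
    rw [← map_add]
    have e1 : D - prin (y D) + (D' - prin (y D')) = D + D' - prin (y D * y D') := by
      rw [prin_mul]; abel
    rw [e1]
    refine key _ _ _ (hy _) (pos_mul (hy D) (hy D')) (hPr _) ?_
    rw [← e1]
    exact (Pr F N).add_mem (hPr D) (hPr D')
  · intro x hx
    show χ (prin x - prin (y (prin x))) = 0
    have h1 : prin x - prin x ∈ Pr F N := by
      rw [sub_self]; exact (Pr F N).zero_mem
    rw [key _ _ x (hy _) hx (hPr _) h1, sub_self, map_zero]
  · intro D hD
    show χ (D - prin (y D)) = χ D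
    have h0 : Pos ((1 : Fˣ) : F) := by
      intro φ
      rw [Units.val_one, map_one]
      exact one_pos
    have h1 : D - prin (1 : Fˣ) = D := by rw [prin_one, sub_zero]
    rw [key _ _ 1 (hy _) h0 (hPr _) (by rw [h1]; exact hD), h1]

end Pool.Agent.Q285.EX
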