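import Pool.Agent.Q285.EX.Ncg
import Pool.Agent.Q225.AR.Fin

/-! Project EX, job CHEV: ray class characters with given local components. -/

set_option autoImplicit false
set_option linter.unusedSectionVars false
set_option linter.deprecated false

namespace Pool.Agent.Q285.EX

open NumberField IsDedekindDomain Pool.Agent.Q5.BR Pool.Agent.Q92.AR Pool.Agent.Q20.EX

/-- Statement of job CHEV for finite sets `S`: `χ` has the local components of `θ` at
the primes of `S` (first clause) and trivial ones at the other primes dividing `N0` (second clause). -/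
def S_CHEV2 : Prop := S_GWG → S_CHU → ∀ (F : Type) [Field F] [NumberField F] (N0 : ℕ)
  (S : Set (HeightOneSpectrum (𝓞 F))) (θ : Dv F →+ Additive ℂˣ), N0 ≠ 0 → S.Finite →
  (∀ x ∈ Ray F N0, θ (prin x) = 0) →
  ∃ (N : ℕ) (χ : Dv F →+ Additive ℂˣ), N ≠ 0 ∧ N0 ∣ N ∧ (∀ x ∈ Ray F N, χ (prin x) = 0) ∧
  (∀ x : Fˣ, Un N x → Pos (x : F) → CongAt Sᶜ N (x : F) → χ (prin x) = θ (prin x)) ∧
  ∀ x : Fˣ, Un N x → Pos (x : F) → CongAt (S ∪ (primesOf F N0)ᶜ) N (x : F) → χ (prin x) = 0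

section ext

/-- characters extend from subgroups -/
theorem ext_char {A : Type} [AddCommGroup A] (H : AddSubgroup A) (f : H →+ Additive ℂˣ) :
    ∃ g : A →+ Additive ℂˣ, ∀ x : H, g x = f x := by
  have h1 : DivisibleBy (Additive ℂˣ) ℕ := divisibleByOfSMulRightSurj _ _ (by
    intro n hn a
    obtain ⟨z, hz⟩ := IsAlgClosed.exists_pow_nat_eq ((a.toMul : ℂˣ) : ℂ) (Nat.pos_of_ne_zero hn)
    have hz0 : z ≠ 0 := by
      rintro rfl
      rw [zero_pow hn] at hz
      exact a.toMul.ne_zero hz.symm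
    refine ⟨Additive.ofMul (Units.mk0 z hz0), ?_⟩
    apply Additive.toMul.injective
    show (Units.mk0 z hz0) ^ n = a.toMul
    ext
    rw [Units.val_pow_eq_pow_val, Units.val_mk0, hz])
  have h2 : DivisibleBy (Additive ℂˣ) ℤ := AddGroup.divisibleByIntOfDivisibleByNat _
  obtain ⟨g, hg⟩ := (Module.Baer.of_divisible (Additive ℂˣ)).extension_property_addMonoidHom
    H.subtype H.subtype_injective f
  exact ⟨g, fun x => DFunLike.congr_fun hg x⟩

/-- a character of a graph gives a character of the source -/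
theorem exists_char_of_rel {A B : Type} [AddCommGroup A] [AddCommGroup B] (Γ : AddSubgroup (A × B))
    (θ : B →+ Additive ℂˣ) (h : ∀ b, ((0 : A), b) ∈ Γ → θ b = 0) :
    ∃ χ : A →+ Additive ℂˣ, ∀ a b, (a, b) ∈ Γ → χ a = θ b := by
  classical
  have hex : ∀ a : Γ.map (AddMonoidHom.fst A B), ∃ b, ((a : A), b) ∈ Γ := by
    rintro ⟨a, ⟨⟨a', b⟩, hab, rfl⟩⟩
    exact ⟨b, hab⟩
  choose b hb using hex
  have huniq : ∀ a b1 b2, (a, b1) ∈ Γ → (a, b2) ∈ Γ → θ b1 = θ b2 := by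
    intro a b1 b2 h1 h2
    have h3 := Γ.sub_mem h1 h2
    rw [Prod.mk_sub_mk, sub_self] at h3
    rw [← sub_eq_zero, ← map_sub]
    exact h _ h3
  let f : Γ.map (AddMonoidHom.fst A B) →+ Additive ℂˣ := AddMonoidHom.mk' (fun a => θ (b a)) (by
    intro a a'
    rw [← map_add]
    exact huniq _ _ _ (hb _) (Γ.add_mem (hb a) (hb a')))
  obtain ⟨χ, hχ⟩ := ext_char _ f
  refine ⟨χ, fun a b' hab => ?_⟩
  have h1 := hχ ⟨a, ⟨(a, b'), hab, rfl⟩⟩
  exact h1.trans (huniq _ _ _ (hb _) hab)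

end ext

section
variable {F : Type} [Field F] [NumberField F]

/-- the elements `≡ 1 mod N` at the primes of `A` dividing `N` -/
def CA (A : Set (HeightOneSpectrum (𝓞 F))) (N : ℕ) : Subgroup Fˣ where
  carrier := {x | CongAt A N (x : F)}
  mul_mem' {a b} ha hb := by
    intro v hv hN
    have h1 : ((a * b : Fˣ) : F) - 1 = (a : F) * ((b : F) - 1) + ((a : F) - 1) := by
      rw [Units.val_mul]; ring
    rw [h1]
    refine (Valuation.map_add _ _ _).trans (max_le ?_ (ha v hv hN))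
    rw [map_mul, val_eq_one hN (ha v hv hN), one_mul]
    exact hb v hv hN
  one_mem' := by
    intro v _ _
    rw [Units.val_one, sub_self, map_zero]
    exact zero_le
  inv_mem' {a} ha := by
    intro v hv hN
    have h1 : ((a⁻¹ : Fˣ) : F) - 1 = - ((a : F)⁻¹ * ((a : F) - 1)) := by
      rw [Units.val_inv_eq_inv_val, mul_sub, inv_mul_cancel₀ a.ne_zero, mul_one]; ring
    rw [h1, Valuation.map_neg, map_mul, map_inv₀, val_eq_one hN (ha v hv hN), inv_one, one_mul]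
    exact ha v hv hN

theorem mem_CA {A : Set (HeightOneSpectrum (𝓞 F))} {N : ℕ} {x : Fˣ} :
    x ∈ CA A N ↔ CongAt A N (x : F) := Iff.rfl

/-- the totally positive elements -/
def PG (F : Type) [Field F] : Subgroup Fˣ where
  carrier := {x | Pos (x : F)}
  mul_mem' {a b} ha hb := by
    intro φ
    rw [Units.val_mul, map_mul]
    exact mul_pos (ha φ) (hb φ)
  one_mem' := by
    intro φ
    rw [Units.val_one, map_one]
    exact one_pos
  inv_mem' {a} ha := by
    intro φ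
    rw [Units.val_inv_eq_inv_val, map_inv₀]
    exact inv_pos.2 (ha φ)

theorem mem_PG {x : Fˣ} : x ∈ PG F ↔ Pos (x : F) := Iff.rfl

/-- the elements which are units at `N` -/
def UG (F : Type) [Field F] [NumberField F] (N : ℕ) : Subgroup Fˣ where
  carrier := {x | Un N x}
  mul_mem' {a b} ha hb := by
    intro v hv
    rw [Units.val_mul, map_mul, ha v hv, hb v hv, one_mul]
  one_mem' := by
    intro v _
    rw [Units.val_one, map_one]
  inv_mem' {a} ha := by
    intro v hv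
    rw [Units.val_inv_eq_inv_val, map_inv₀, ha v hv, inv_one]

theorem mem_UG {N : ℕ} {x : Fˣ} : x ∈ UG F N ↔ Un N x := Iff.rfl

theorem val_dvd_le {N0 N : ℕ} (h : N0 ∣ N) (v : HeightOneSpectrum (𝓞 F)) :
    v.valuation F (N : F) ≤ v.valuation F (N0 : F) := by
  obtain ⟨k, rfl⟩ := h
  rw [Nat.cast_mul, map_mul]
  have h3 := v.valuation_le_one (K := F) (k : 𝓞 F)
  have h4 : v.valuation F (k : F) ≤ 1 := by simpa using h3
  exact mul_le_of_le_one_right' h4

theorem mem_of_dvd {N0 N : ℕ} (h : N0 ∣ N) {v : HeightOneSpectrum (𝓞 F)}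
    (hv : (N0 : 𝓞 F) ∈ v.asIdeal) : (N : 𝓞 F) ∈ v.asIdeal := by
  obtain ⟨k, rfl⟩ := h
  rw [Nat.cast_mul]
  exact Ideal.mul_mem_right _ _ hv

theorem CA_mono {A B : Set (HeightOneSpectrum (𝓞 F))} {N0 N : ℕ} (hAB : A ⊆ B) (h : N0 ∣ N) :
    (CA B N : Subgroup Fˣ) ≤ CA A N0 := by
  intro x hx v hv hN
  exact (hx v (hAB hv) (mem_of_dvd h hN)).trans (val_dvd_le h v)

theorem UG_mono {N0 N : ℕ} (h : N0 ∣ N) : UG F N ≤ UG F N0 := by
  intro x hx v hv
  exact hx v (mem_of_dvd h hv)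

theorem mem_Ray_of {S : Set (HeightOneSpectrum (𝓞 F))} {N : ℕ} {x : Fˣ} (h1 : x ∈ CA S N)
    (h2 : x ∈ CA Sᶜ N) (h3 : x ∈ PG F) : x ∈ Ray F N := by
  refine ⟨fun v hv => ?_, h3⟩
  by_cases h : v ∈ S
  · exact h1 v h hv
  · exact h2 v h hv

theorem prin_pow (x : Fˣ) (m : ℕ) : prin (x ^ m) = m • prin x := by
  induction m with
  | zero => rw [pow_zero, zero_smul, prin_one]
  | succ m ih => rw [pow_succ, prin_mul, ih, succ_nsmul]

/-- a ray class character has finite order on the divisors prime to the modulus -/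
theorem exists_order {N0 : ℕ} (hN0 : N0 ≠ 0) (θ : Dv F →+ Additive ℂˣ)
    (hθ : ∀ x ∈ Ray F N0, θ (prin x) = 0) : ∃ m : ℕ, m ≠ 0 ∧ ∀ D ∈ Pr F N0, m • θ D = 0 := by
  refine ⟨(RayD F N0).relIndex (Pr F N0), Pool.Agent.Q225.AR.fin F N0 hN0, fun D hD => ?_⟩
  have h1 : (RayD F N0).relIndex (Pr F N0) • (⟨D, hD⟩ : Pr F N0) ∈
      (RayD F N0).addSubgroupOf (Pr F N0) := AddSubgroup.nsmul_index_mem _ _
  rw [AddSubgroup.mem_addSubgroupOf] at h1
  have h2 : RayD F N0 ≤ θ.ker := by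
    unfold RayD
    rw [AddSubgroup.closure_le]
    rintro _ ⟨x, hx, rfl⟩
    exact hθ x hx
  have h3 := h2 h1
  rw [AddMonoidHom.mem_ker] at h3
  rw [← map_nsmul]
  exact h3

end

/-- **job CHEV** -/
theorem chev : S_CHEV2 := by
  intro hGWG hCHU F _ _ N0 S θ hN0 hS hθ
  classical
  obtain ⟨m, hm, hmθ⟩ := exists_order hN0 θ hθ
  set P : ℕ := N0 * ∏ v ∈ hS.toFinset, Ideal.absNorm v.asIdeal with hP
  have hP0 : P ≠ 0 := by
    refine mul_ne_zero hN0 (Finset.prod_ne_zero_iff.2 fun v _ => ?_)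
    rw [Ne, Ideal.absNorm_eq_zero_iff]
    exact v.ne_bot
  have hSP : ∀ v ∈ S, (P : 𝓞 F) ∈ v.asIdeal := by
    intro v hv
    rw [hP, Nat.cast_mul]
    refine Ideal.mul_mem_left _ _ ?_
    have h1 : Ideal.absNorm v.asIdeal ∣ ∏ v ∈ hS.toFinset, Ideal.absNorm v.asIdeal :=
      Finset.dvd_prod_of_mem (fun v : HeightOneSpectrum (𝓞 F) => Ideal.absNorm v.asIdeal)
        (hS.mem_toFinset.2 hv)
    exact mem_of_dvd h1 (Ideal.absNorm_mem _)
  obtain ⟨Q, hQ0, hQP, hQ⟩ := hCHU hGWG F m P hm hP0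
  have hcop : ∀ v : HeightOneSpectrum (𝓞 F), (Q : 𝓞 F) ∈ v.asIdeal → (P : 𝓞 F) ∉ v.asIdeal := by
    intro v h1 h2
    obtain ⟨a, b, hab⟩ := Nat.isCoprime_iff_coprime.2 hQP
    have h3 : (1 : 𝓞 F) ∈ v.asIdeal := by
      have h4 : ((a * Q + b * P : ℤ) : 𝓞 F) = ((1 : ℤ) : 𝓞 F) := by rw [hab]
      push_cast at h4
      rw [← h4]
      exact v.asIdeal.add_mem (Ideal.mul_mem_left _ _ h1) (Ideal.mul_mem_left _ _ h2)
    exact v.isPrime.ne_top ((Ideal.eq_top_iff_one _).2 h3)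
  set N : ℕ := P * Q with hN
  have hNne : N ≠ 0 := mul_ne_zero hP0 hQ0
  have hN0P : N0 ∣ P := Dvd.intro _ rfl
  have hPN : P ∣ N := Dvd.intro _ rfl
  have hQN : Q ∣ N := Dvd.intro_left _ rfl
  have hN0N : N0 ∣ N := hN0P.trans hPN
  -- the graph
  let Γ : AddSubgroup (Dv F × Dv F) :=
    { carrier := {p | ∃ x z : Fˣ, x ∈ UG F N ∧ x ∈ PG F ∧ x ∈ CA (primesOf F Q) N ∧ z ∈ PG F ∧
        x / z ∈ CA S N0 ∧ z ∈ CA Sᶜ N0 ∧ p = (prin x, prin z)}
      add_mem' := by
        rintro _ _ ⟨x, z, h1, h2, h3, h4, h5, h6, rfl⟩ ⟨x', z', h1', h2', h3', h4', h5', h6', rfl⟩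
        refine ⟨x * x', z * z', mul_mem h1 h1', mul_mem h2 h2', mul_mem h3 h3', mul_mem h4 h4', ?_,
          mul_mem h6 h6', ?_⟩
        · rw [mul_div_mul_comm]
          exact mul_mem h5 h5'
        · rw [prin_mul, prin_mul, Prod.mk_add_mk]
      zero_mem' := ⟨1, 1, one_mem _, one_mem _, one_mem _, one_mem _, by
        rw [div_one]; exact one_mem _, one_mem _, by rw [prin_one]; rfl⟩
      neg_mem' := by
        rintro _ ⟨x, z, h1, h2, h3, h4, h5, h6, rfl⟩
        refine ⟨x⁻¹, z⁻¹, inv_mem h1, inv_mem h2, inv_mem h3, inv_mem h4, ?_, inv_mem h6, ?_⟩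
        · have h7 : x⁻¹ / z⁻¹ = (x / z)⁻¹ := by
            rw [div_eq_mul_inv, div_eq_mul_inv, mul_inv, inv_inv]
          rw [h7]
          exact inv_mem h5
        · rw [prin_inv, prin_inv, Prod.neg_mk] }
  have hΓ : ∀ b, ((0 : Dv F), b) ∈ Γ → θ b = 0 := by
    rintro b ⟨x, z, h1, h2, h3, h4, h5, h6, h7⟩
    rw [Prod.mk.injEq] at h7
    obtain ⟨h7, rfl⟩ := h7
    obtain ⟨t, ht, hxt⟩ := hQ x h7.symm (by
      intro v hv
      have h8 := mem_of_dvd hQN hv
      refine (h3 v hv h8).trans_lt ?_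
      have h := (v.valuation_lt_one_iff_mem (K := F) (N : 𝓞 F)).2 h8
      simpa using h)
    have htv : ∀ v : HeightOneSpectrum (𝓞 F), v.valuation F (t : F) = 1 := by
      intro v
      exact val_one_of_prin (by rw [ht]; rfl)
    obtain ⟨z', hz1, hz2, hz3⟩ := approx_split hN0 S t (fun v _ _ => htv v)
    have hz'Pr : prin z' ∈ Pr F N0 := by
      intro v hv
      by_cases hvS : v ∈ S
      · have h8 := val_eq_one hv (hz2 v hvS hv)
        rw [Units.val_div_eq_div_val, map_div₀, htv v] at h8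
        refine Pool.Agent.Q125.AR.prin_eq_zero_of_valuation ?_
        have h9 : v.valuation F (z' : F) ≠ 0 := (Valuation.ne_zero_iff _).2 z'.ne_zero
        rw [div_eq_one_iff_eq h9] at h8
        exact h8.symm
      · exact Pool.Agent.Q125.AR.prin_eq_zero_of_valuation (val_eq_one hv (hz3 v hvS hv))
    have hray : z / z' ^ m ∈ Ray F N0 := by
      refine mem_Ray_of (S := S) ?_ ?_ ?_
      · have h8 : z / z' ^ m = (t / z') ^ m / (x / z) := by
          rw [hxt, div_pow]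
          rw [div_div_div_eq, mul_comm (z' ^ m), mul_div_mul_left_eq_div]
        rw [h8]
        exact div_mem (pow_mem (mem_CA.2 hz2) m) h5
      · exact div_mem h6 (pow_mem (mem_CA.2 hz3) m)
      · exact div_mem h4 (pow_mem (mem_PG.2 hz1) m)
    have h8 := hθ _ hray
    rw [prin_div, prin_pow, map_sub, map_nsmul, hmθ _ hz'Pr, sub_zero] at h8
    exact h8
  obtain ⟨χ, hχ⟩ := exists_char_of_rel Γ θ hΓ
  have hQS : primesOf F Q ⊆ Sᶜ := fun v hv hvS => hcop v hv (hSP v hvS)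
  have hQN0 : primesOf F Q ⊆ (primesOf F N0)ᶜ := fun v hv hv0 => hcop v hv (mem_of_dvd hN0P hv0)
  refine ⟨N, χ, hNne, hN0N, ?_, ?_, ?_⟩
  · intro x hx
    have hxA : x ∈ CA Set.univ N := fun v _ hv => hx.1 v hv
    have h1 : (prin x, prin x) ∈ Γ :=
      ⟨x, x, fun v hv => val_eq_one hv (hx.1 v hv), hx.2, CA_mono (Set.subset_univ _) dvd_rfl hxA,
        hx.2, by rw [div_self']; exact one_mem _, CA_mono (Set.subset_univ _) hN0N hxA, rfl⟩
    rw [hχ _ _ h1]
    exact hθ x ⟨fun v hv => CA_mono (Set.subset_univ _) hN0N hxA v (Set.mem_univ v) hv, hx.2⟩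
  · intro x hxU hxP hxC
    refine hχ _ _ ⟨x, x, hxU, hxP, CA_mono hQS dvd_rfl (mem_CA.2 hxC), hxP, ?_,
      CA_mono le_rfl hN0N (mem_CA.2 hxC), rfl⟩
    rw [div_self']
    exact one_mem _
  · intro x hxU hxP hxC
    have h1 : (prin x, prin (1 : Fˣ)) ∈ Γ :=
      ⟨x, 1, hxU, hxP, CA_mono (hQN0.trans Set.subset_union_right) dvd_rfl (mem_CA.2 hxC),
        one_mem _, by
          rw [div_one]
          exact CA_mono Set.subset_union_left hN0N (mem_CA.2 hxC), one_mem _, rfl⟩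
    rw [hχ _ _ h1, prin_one, map_zero]

end Pool.Agent.Q285.EX
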