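import Pool.Agent.Q285.EX.Ncg
import Pool.Agent.Q225.AR.FR
import Pool.Agent.Q106.AR.NmB
import Pool.Agent.Q125.AR.NKer

/-! Project EX, job TRIV: the Artin character has trivial local components at unramified primes. -/

set_option autoImplicit false
set_option linter.unusedSectionVars false
set_option linter.deprecated false

namespace Pool.Agent.Q285.EX

open NumberField IsDedekindDomain Pool.Agent.Q5.BR Pool.Agent.Q92.AR Pool.Agent.Q20.EX

/-- **job TRIV** -/
theorem triv : S_TRIV := by
  intro hNRM F M _ _ _ _ _ _ ψ N hN hR hray x hxU hxP hxC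
  obtain ⟨y, hyP, hnyP, hc, hw⟩ := hNRM F M N x hN (by
    intro v hv
    by_cases h : Unramified M v
    · exact Or.inr (Or.inr ⟨h, hxU v hv⟩)
    · exact Or.inl (hxC v h hv))
  have h1 : prin y ∈ Pr M N := by
    intro w hNw
    refine Pool.Agent.Q125.AR.prin_eq_zero_of_valuation (hw w hNw (hxU _ ?_))
    exact Pool.Agent.Q125.AR.mem_under.2 hNw
  have h2 : x / nu F M y ∈ Ray F N := by
    refine ⟨?_, pos_div hxP hnyP⟩
    rw [Units.val_div_eq_div_val]
    exact hc
  have h3 := hray _ h2
  rw [prin_div, map_sub, sub_eq_zero] at h3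
  rw [h3, ← (Pool.Agent.Q106.AR.nm F M).1 y]
  exact Pool.Agent.Q125.AR.art_nmD Pool.Agent.Q225.AR.fr ψ hR h1

end Pool.Agent.Q285.EX
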