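import Pool.Agent.Q84.AR.Frac
import Pool.Agent.Q125.AR.Base
import Pool.Agent.Q20.EX.Stm

/-! Project EX: weak approximation with total positivity, and the groups of elements with given
behaviour at the primes dividing an integer. -/

set_option autoImplicit false
set_option linter.unusedSectionVars false
set_option linter.deprecated false

namespace Pool.Agent.Q285.EX

open NumberField IsDedekindDomain Pool.Agent.Q5.BR Pool.Agent.Q92.AR Pool.Agent.Q20.EX

section
variable {F : Type} [Field F] [NumberField F]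

theorem exists_common_den (T : Finset (HeightOneSpectrum (𝓞 F)))
    (a : HeightOneSpectrum (𝓞 F) → F) : ∃ d : ℕ, d ≠ 0 ∧ ∀ v ∈ T, ∃ b : 𝓞 F, a v * d = b := by
  classical
  choose M hM0 hM using fun v => Pool.Agent.Q84.AR.exists_nat_den (a v)
  refine ⟨∏ v ∈ T, M v, Finset.prod_ne_zero_iff.2 fun v _ => hM0 v, fun v hv => ?_⟩
  obtain ⟨b, hb⟩ := hM v
  refine ⟨b * ((∏ u ∈ T.erase v, M u : ℕ) : 𝓞 F), ?_⟩
  rw [← Finset.mul_prod_erase T M hv, Nat.cast_mul, ← mul_assoc]
  have h1 : (algebraMap (𝓞 F) F (M v : 𝓞 F)) = (M v : F) := map_natCast _ _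
  rw [h1] at hb
  rw [hb]
  simp

theorem val_nat_eq (v : HeightOneSpectrum (𝓞 F)) {d : ℕ} (hd : d ≠ 0) :
    ∃ k : ℕ, v.valuation F (d : F) = WithZero.exp (-(k : ℤ)) := by
  have hd' : (d : F) ≠ 0 := by exact_mod_cast hd
  have h1 := Pool.Agent.Q125.AR.valuation_eq_exp (Units.mk0 (d : F) hd') v
  rw [Units.val_mk0] at h1
  have h2 : v.valuation F (d : F) ≤ 1 := by
    have h3 := v.valuation_le_one (K := F) (d : 𝓞 F)
    simpa using h3
  rw [h1, ← WithZero.exp_zero, WithZero.exp_le_exp] at h2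
  refine ⟨(prin (Units.mk0 (d : F) hd') v).toNat, ?_⟩
  rw [h1]
  congr 1
  omega

/-- **Weak approximation** with total positivity. -/
theorem approx (T : Finset (HeightOneSpectrum (𝓞 F)))
    (a : HeightOneSpectrum (𝓞 F) → F) (n : ℕ) : ∃ y : Fˣ, Pos (y : F) ∧
    ∀ v ∈ T, v.valuation F ((y : F) - a v) ≤ WithZero.exp (-(n : ℤ)) := by
  classical
  obtain ⟨d, hd, hb⟩ := exists_common_den T a
  have hd' : (d : F) ≠ 0 := by exact_mod_cast hd
  choose! b hb using hb
  choose k hk using fun v : HeightOneSpectrum (𝓞 F) => val_nat_eq v hd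
  obtain ⟨y', hy'⟩ := IsDedekindDomain.exists_forall_sub_mem_ideal (s := T)
    (fun v : HeightOneSpectrum (𝓞 F) => v.asIdeal) (fun v => n + k v)
    (fun v _ => v.prime) (fun v _ w _ h h' => h (HeightOneSpectrum.ext h')) (fun v => b v)
  set y0 : F := (y' : F) / d with hy0
  have h0 : ∀ v ∈ T, v.valuation F (y0 - a v) ≤ WithZero.exp (-(n : ℤ)) := by
    intro v hv
    have h1 := hy' v hv
    rw [← v.intValuation_le_pow_iff_mem, ← v.valuation_of_algebraMap (K := F)] at h1
    replace h1 : v.valuation F (algebraMap (𝓞 F) F (y' - b v)) ≤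
      WithZero.exp (-((n + k v : ℕ) : ℤ)) := h1
    rw [map_sub] at h1
    have h2 : y0 - a v = (algebraMap (𝓞 F) F y' - algebraMap (𝓞 F) F (b v)) / d := by
      have h3 : a v * (d : F) = algebraMap (𝓞 F) F (b v) := hb v hv
      rw [← h3, hy0]
      field_simp
    rw [h2, map_div₀, hk v]
    refine (div_le_iff₀ (by exact WithZero.exp_pos)).2 (h1.trans (le_of_eq ?_))
    rw [← WithZero.exp_add]
    congr 1
    push_cast
    ring
  set M0 : ℕ := ∏ v ∈ T, Ideal.absNorm v.asIdeal ^ n with hM0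
  have hM1 : 1 ≤ M0 := by
    refine Nat.one_le_iff_ne_zero.2 (Finset.prod_ne_zero_iff.2 fun v _ => pow_ne_zero _ ?_)
    rw [Ne, Ideal.absNorm_eq_zero_iff]
    exact v.ne_bot
  have hM2 : ∀ v ∈ T, ∀ t : ℕ, v.valuation F ((M0 : F) * t) ≤ WithZero.exp (-(n : ℤ)) := by
    intro v hv t
    have h1 : ((M0 : 𝓞 F) * t) ∈ v.asIdeal ^ n := by
      refine Ideal.mul_mem_right _ _ ?_
      rw [hM0, ← Finset.mul_prod_erase T _ hv, Nat.cast_mul, Nat.cast_pow]
      exact Ideal.mul_mem_right _ _ (Ideal.pow_mem_pow (Ideal.absNorm_mem _) n)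
    rw [← v.intValuation_le_pow_iff_mem, ← v.valuation_of_algebraMap (K := F)] at h1
    simpa using h1
  obtain ⟨t, ht⟩ := exists_nat_gt (∑ ψ : F →+* ℂ, ‖ψ y0‖)
  have ht' : ∀ ψ : F →+* ℂ, ‖ψ y0‖ < (M0 : ℝ) * t := by
    intro ψ
    have h1 : ‖ψ y0‖ ≤ ∑ ψ : F →+* ℂ, ‖ψ y0‖ :=
      Finset.single_le_sum (f := fun ψ : F →+* ℂ => ‖ψ y0‖) (fun _ _ => norm_nonneg _)
        (Finset.mem_univ ψ)
    have h2 : (1 : ℝ) ≤ M0 := by exact_mod_cast hM1
    have h3 : (0 : ℝ) ≤ t := Nat.cast_nonneg t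
    nlinarith
  have hne : y0 + (M0 : F) * t ≠ 0 := by
    intro h
    obtain ⟨ψ⟩ : Nonempty (F →+* ℂ) := inferInstance
    have h1 := ht' ψ
    have h2 : ψ y0 = - ((M0 : ℂ) * t) := by
      have h3 := congrArg ψ h
      rw [map_add, map_mul, map_natCast, map_natCast, map_zero] at h3
      exact eq_neg_of_add_eq_zero_left h3
    rw [h2, norm_neg, norm_mul, Complex.norm_natCast, Complex.norm_natCast] at h1
    exact lt_irrefl _ h1
  refine ⟨Units.mk0 _ hne, ?_, ?_⟩
  · intro φ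
    rw [Units.val_mk0, map_add, map_mul, map_natCast, map_natCast]
    have h1 := ht' (Complex.ofRealHom.comp φ)
    rw [RingHom.comp_apply, Complex.ofRealHom_eq_coe, Complex.norm_real, Real.norm_eq_abs] at h1
    have h2 := neg_abs_le (φ y0)
    linarith
  · intro v hv
    rw [Units.val_mk0]
    have h1 : y0 + (M0 : F) * t - a v = (y0 - a v) + (M0 : F) * t := by ring
    rw [h1]
    exact (Valuation.map_add _ _ _).trans (max_le (h0 v hv) (hM2 v hv t))

/-- the finite set of the primes dividing `N` -/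
noncomputable def pN (F : Type) [Field F] [NumberField F] (N : ℕ) (hN : N ≠ 0) :
    Finset (HeightOneSpectrum (𝓞 F)) := (Pool.Agent.Q125.AR.finite_dvd (F := F) hN).toFinset

theorem mem_pN {N : ℕ} (hN : N ≠ 0) (v : HeightOneSpectrum (𝓞 F)) :
    v ∈ pN F N hN ↔ (N : 𝓞 F) ∈ v.asIdeal := by
  unfold pN
  rw [Set.Finite.mem_toFinset]
  rfl

/-- an exponent `n` such that `exp (-n) ≤ v(N)` for the primes of a finite set -/
theorem exists_exp_le (T : Finset (HeightOneSpectrum (𝓞 F))) {N : ℕ} (hN : N ≠ 0) :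
    ∃ n : ℕ, 0 < n ∧ ∀ v ∈ T, WithZero.exp (-(n : ℤ)) ≤ v.valuation F (N : F) := by
  classical
  choose k hk using fun v : HeightOneSpectrum (𝓞 F) => val_nat_eq v hN
  refine ⟨∑ v ∈ T, k v + 1, Nat.succ_pos _, fun v hv => ?_⟩
  rw [hk v, WithZero.exp_le_exp]
  have h1 : k v ≤ ∑ v ∈ T, k v := Finset.single_le_sum (f := k) (fun _ _ => Nat.zero_le _) hv
  push_cast
  have h2 : (k v : ℤ) ≤ ∑ v ∈ T, (k v : ℤ) := by exact_mod_cast h1
  omega

/-- approximation of an element which is a unit at the primes dividing `N`, with precision `N`: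
`z ≡ x` at the primes of `A` dividing `N`, `z ≡ 1` at the others. -/
theorem approx_split {N : ℕ} (hN : N ≠ 0) (A : Set (HeightOneSpectrum (𝓞 F))) (x : Fˣ)
    (hx : ∀ v ∈ A, (N : 𝓞 F) ∈ v.asIdeal → v.valuation F (x : F) = 1) :
    ∃ z : Fˣ, Pos (z : F) ∧ CongAt A N ((x / z : Fˣ) : F) ∧ CongAt Aᶜ N (z : F) := by
  classical
  obtain ⟨n, hn0, hn⟩ := exists_exp_le (F := F) (pN F N hN) hN
  obtain ⟨z, hz, hza⟩ := approx (pN F N hN) (fun v => if v ∈ A then (x : F) else 1) n
  refine ⟨z, hz, ?_, ?_⟩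
  · intro v hv hNv
    have h1 := hza v ((mem_pN hN v).2 hNv)
    rw [if_pos hv] at h1
    have h2 := h1.trans (hn v ((mem_pN hN v).2 hNv))
    have h3 := hx v hv hNv
    have hN1 : v.valuation F (N : F) < 1 := by
      have h := (v.valuation_lt_one_iff_mem (K := F) (N : 𝓞 F)).2 hNv
      simpa using h
    have h4 : v.valuation F (z : F) = 1 := by
      have h5 := Valuation.map_add_eq_of_lt_right (v.valuation F)
        (show v.valuation F ((z : F) - x) < v.valuation F (x : F) by rw [h3]; exact h2.trans_lt hN1)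
      rw [sub_add_cancel, h3] at h5
      exact h5
    have h6 : ((x / z : Fˣ) : F) - 1 = - (((z : F) - x) / z) := by
      rw [Units.val_div_eq_div_val]
      field_simp
      ring
    rw [h6, Valuation.map_neg, map_div₀, h4, div_one]
    exact h2
  · intro v hv hNv
    have h1 := hza v ((mem_pN hN v).2 hNv)
    rw [if_neg hv] at h1
    exact h1.trans (hn v ((mem_pN hN v).2 hNv))

end

end Pool.Agent.Q285.EX
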