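import Pool.Agent.Q285.EX.Univ

/-!
# Project EX: the lower bound of the local norms of the extremal functions
-/

set_option autoImplicit false

open Polynomial Filter Topology Finset MeasureTheory
open Pool.Agent.H24R2.JP (XX)
open Pool.Agent.Q240.CD

namespace Pool.Agent.Q285.EX

open Pool.Agent.Q240.EX

/-- the local norms of the extremal functions are bounded from below -/
theorem nw_low (hKR : S_KR) (hUZt : S_UZt) (_ : S_XtE) (hXtP : S_XtP) (hRH : RHy) {γ : ℕ → ℝ} (hγ : EN γ)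
    (w : Measure ℝ) (hw : Ad γ w) : ∃ K A c : ℝ, 0 < c ∧ ∀ (a : ℝ) (ν : ℕ∞), A ≤ a → Big K a ν →
      ∀ f : ℝ → ℂ, Xt a ν f → c ≤ Nw w f := by
  set Xr : ℝ → ℂ := fun x => GC (fun j => γ j ^ 2) ((x : ℂ) ^ 2) with hXr
  set W : ℝ → ℝ := fun x => (1 + x ^ 2 / γ 0 ^ 2) * Gm γ x ^ 2 with hW
  set c : ℝ := ∫ x : ℝ, ‖Xr x‖ ^ 2 ∂w with hc
  have hc0 : 0 < c := hw.pos
  have hXi : Integrable (fun x : ℝ => ‖Xr x‖ ^ 2) w := by
    by_contra h
    rw [hc, integral_undef h] at hc0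
    exact lt_irrefl _ hc0
  -- the measure is finite
  have hfin : IsFiniteMeasure w := by
    have h1 := hw.int.measure_norm_ge_lt_top (ε := 1) one_pos
    have h2 : {x : ℝ | 1 ≤ ‖(1 + x ^ 2) * Gm γ x ^ 2‖} = Set.univ := by
      ext x
      simp only [Set.mem_ofPred_eq, Set.mem_univ, iff_true]
      have h3 := one_le_Gm γ x
      have h4 : 1 ≤ Gm γ x ^ 2 := one_le_pow₀ h3
      have h5 : 1 ≤ 1 + x ^ 2 := by nlinarith [sq_nonneg x]
      rw [Real.norm_of_nonneg (by positivity)]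
      nlinarith
    rw [h2] at h1
    exact ⟨h1⟩
  set M : ℝ := w.real Set.univ with hM
  have hM0 : 0 ≤ M := measureReal_nonneg
  -- the dominating function
  have hWi : Integrable W w := by
    have hcont : Continuous fun x : ℝ => (1 + x ^ 2 / γ 0 ^ 2) / (1 + x ^ 2) := by
      refine Continuous.div (by fun_prop) (by fun_prop) fun x => ?_
      positivity
    have e : W = fun x => (1 + x ^ 2 / γ 0 ^ 2) / (1 + x ^ 2) * ((1 + x ^ 2) * Gm γ x ^ 2) := by
      funext x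
      have : (1 : ℝ) + x ^ 2 ≠ 0 := by positivity
      rw [hW]
      field_simp
    rw [e]
    refine hw.int.bdd_mul (c := max 1 (1 / γ 0 ^ 2)) hcont.aestronglyMeasurable (Eventually.of_forall fun x => ?_)
    rw [Real.norm_of_nonneg (by positivity), div_le_iff₀ (by positivity)]
    have h1 : (1 : ℝ) ≤ max 1 (1 / γ 0 ^ 2) := le_max_left _ _
    have h2 : 1 / γ 0 ^ 2 ≤ max 1 (1 / γ 0 ^ 2) := le_max_right _ _
    have h3 : x ^ 2 / γ 0 ^ 2 = 1 / γ 0 ^ 2 * x ^ 2 := by ring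
    rw [h3]
    nlinarith [sq_nonneg x, mul_le_mul_of_nonneg_right h2 (sq_nonneg x)]
  have hWn : ∀ x, 0 ≤ W x := fun x => by rw [hW]; positivity
  -- the tail
  obtain ⟨T, hT0, hT⟩ := tail_small (hXi.add hWi) (κ := c / 32) (by positivity)
  set S : Set ℝ := {x : ℝ | T < |x|} with hS
  have hSm : MeasurableSet S := measurableSet_lt measurable_const measurable_id.abs
  have hT1 : ∫ x in S, ‖Xr x‖ ^ 2 ∂w ≤ c / 32 := by
    refine le_trans ?_ hT
    refine setIntegral_mono hXi.integrableOn (hXi.add hWi).integrableOn fun x => ?_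
    show ‖Xr x‖ ^ 2 ≤ ‖Xr x‖ ^ 2 + W x
    linarith [hWn x]
  -- the small number
  obtain ⟨η, hη0, hη1⟩ : ∃ η : ℝ, 0 < η ∧ η * (64 * (M + 1)) ≤ c := by
    refine ⟨c / (64 * (M + 1)), by positivity, ?_⟩
    exact le_of_eq (by field_simp)
  obtain ⟨K, A, hKA⟩ := hUZt hRH γ hγ T η hη0
  refine ⟨K, max A 1, c / 4, by positivity, fun a ν ha hν F0 hF => ?_⟩
  have ha0 : 0 < a := lt_of_lt_of_le one_pos ((le_max_right _ _).trans ha)
  have haA : A ≤ a := (le_max_left _ _).trans ha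
  obtain ⟨hF0, hF01, hF0min⟩ := hF
  have hδ : 0 < Y23.QQ F0 := (hXtP hRH a ν F0 ha0 ⟨hF0, hF01, hF0min⟩).1
  set δ := Y23.QQ F0 with hδd
  have hcont : ∀ g : ℝ → ℂ, Y23.G.F.Hn a ν g → Continuous fun x : ℝ => ‖Y23.TT g (Complex.I * x)‖ ^ 2 := by
    intro g hg
    have h1 : Continuous (Y23.TT g) := (Y23.differentiable_TT hg.1).continuous
    exact ((h1.comp (by fun_prop)).norm).pow 2
  have hS1 : ∀ x : ℝ, x ∉ S → ‖(x : ℂ)‖ ≤ T := by
    intro x hx
    rw [Complex.norm_real, Real.norm_eq_abs]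
    exact not_lt.1 hx
  -- the extremal function
  have hK0 : ∀ x : ℝ, ‖Y23.TT F0 (Complex.I * x)‖ ^ 2 ≤ W x := by
    intro x
    have h1 := hKR hRH γ hγ a ν δ ha0 hF0min F0 hF0 x
    rw [← hδd, mul_comm _ δ] at h1
    exact le_of_mul_le_mul_left h1 hδ
  have hU0 : ∀ x : ℝ, x ∉ S → ‖Y23.TT F0 (Complex.I * x) - Xr x‖ ^ 2 ≤ η := by
    intro x hx
    have h1 := hKA a ν haA hν δ hF0min F0 hF0 x (hS1 x hx)
    rw [hF01, one_mul, ← hδd, mul_comm η δ] at h1
    exact le_of_mul_le_mul_left h1 hδ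
  have hF0i : Integrable (fun x : ℝ => ‖Y23.TT F0 (Complex.I * x)‖ ^ 2) w := by
    refine hWi.mono (hcont F0 hF0).aestronglyMeasurable (Eventually.of_forall fun x => ?_)
    rw [Real.norm_of_nonneg (by positivity), Real.norm_of_nonneg (hWn x)]
    exact hK0 x
  have h1 : ∀ x, ‖Xr x‖ ^ 2 ≤ S.indicator (fun x => ‖Xr x‖ ^ 2) x +
      (2 * ‖Y23.TT F0 (Complex.I * x)‖ ^ 2 + 2 * η) := by
    intro x
    by_cases hx : x ∈ S
    · rw [Set.indicator_of_mem hx]
      have : 0 ≤ 2 * ‖Y23.TT F0 (Complex.I * x)‖ ^ 2 + 2 * η := by positivity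
      linarith
    · rw [Set.indicator_of_notMem hx, zero_add]
      have h2 := sq_add_le (Xr x) (Y23.TT F0 (Complex.I * x))
      rw [norm_sub_rev] at h2
      have h3 := hU0 x hx
      linarith
  have i1 : Integrable (fun x => S.indicator (fun x => ‖Xr x‖ ^ 2) x) w := hXi.indicator hSm
  have i2 : Integrable (fun x : ℝ => 2 * ‖Y23.TT F0 (Complex.I * x)‖ ^ 2) w := hF0i.const_mul 2
  have i3 : Integrable (fun _ : ℝ => 2 * η) w := integrable_const _
  have i4 : Integrable (fun x : ℝ => 2 * ‖Y23.TT F0 (Complex.I * x)‖ ^ 2 + 2 * η) w := i2.add i3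
  have h2 : c ≤ ∫ x, (S.indicator (fun x => ‖Xr x‖ ^ 2) x +
      (2 * ‖Y23.TT F0 (Complex.I * x)‖ ^ 2 + 2 * η)) ∂w := integral_mono hXi (i1.add i4) h1
  rw [integral_add i1 i4, integral_add i2 i3, integral_indicator hSm, integral_const_mul,
    integral_const, smul_eq_mul] at h2
  change c ≤ _ + (2 * Nw w F0 + M * (2 * η)) at h2
  nlinarith

end Pool.Agent.Q285.EX
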