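import Pool.Agent.Q240.EX.Stm5

/-!
# Project EX, job Univ: all local norms have the same limit
-/

set_option autoImplicit false

open Polynomial Filter Topology Finset MeasureTheory
open Pool.Agent.H24R2.JP (XX)
open Pool.Agent.Q240.CD

namespace Pool.Agent.Q285.EX

open Pool.Agent.Q240.EX

theorem one_le_Gm (γ : ℕ → ℝ) (x : ℝ) : 1 ≤ Gm γ x := by
  unfold Gm
  have h1 : ∀ j, 1 ≤ 1 + x ^ 2 / γ j ^ 2 := fun j => by
    have : 0 ≤ x ^ 2 / γ j ^ 2 := by positivity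
    linarith
  by_cases hm : Multipliable fun j => 1 + x ^ 2 / γ j ^ 2
  · refine ge_of_tendsto hm.hasProd (Eventually.of_forall fun s => ?_)
    exact Finset.prod_induction _ (fun y : ℝ => 1 ≤ y) (fun a b ha hb => by nlinarith) le_rfl (fun j _ => h1 j)
  · rw [tprod_eq_one_of_not_multipliable hm]

theorem Gm_zero (γ : ℕ → ℝ) : Gm γ 0 = 1 := by
  unfold Gm
  simp

/-- the tails of an integrable function -/
theorem tail_small {w : Measure ℝ} {h : ℝ → ℝ} (hh : Integrable h w) {κ : ℝ} (hκ : 0 < κ) :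
    ∃ T : ℝ, 0 ≤ T ∧ ∫ x in {x : ℝ | T < |x|}, h x ∂w ≤ κ := by
  have hanti : Antitone fun n : ℕ => {x : ℝ | (n : ℝ) < |x|} := by
    intro m n hmn x hx
    have h1 : (m : ℝ) ≤ n := by exact_mod_cast hmn
    exact lt_of_le_of_lt h1 hx
  have hmeas : ∀ n : ℕ, MeasurableSet {x : ℝ | (n : ℝ) < |x|} := fun n =>
    measurableSet_lt measurable_const measurable_id.abs
  have h1 := tendsto_setIntegral_of_antitone hmeas hanti ⟨0, hh.integrableOn⟩
  have h2 : ⋂ n : ℕ, {x : ℝ | (n : ℝ) < |x|} = ∅ := by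
    ext x
    simp only [Set.mem_iInter, Set.mem_ofPred_eq, Set.mem_empty_iff_false, iff_false, not_forall, not_lt]
    exact exists_nat_ge |x|
  rw [h2, Measure.restrict_empty, integral_zero_measure] at h1
  obtain ⟨n, hn⟩ := ((tendsto_order.1 h1).2 κ hκ).exists
  exact ⟨n, n.cast_nonneg, hn.le⟩

theorem sq_add_le (u v : ℂ) : ‖u‖ ^ 2 ≤ 2 * ‖v‖ ^ 2 + 2 * ‖u - v‖ ^ 2 := by
  have h1 : ‖u‖ ≤ ‖v‖ + ‖u - v‖ := by
    calc ‖u‖ = ‖v + (u - v)‖ := by rw [add_sub_cancel]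
      _ ≤ _ := norm_add_le _ _
  have h2 : ‖u‖ ^ 2 ≤ (‖v‖ + ‖u - v‖) ^ 2 := pow_le_pow_left₀ (norm_nonneg _) h1 2
  nlinarith [sq_nonneg (‖v‖ - ‖u - v‖)]

theorem univ (hKR : S_KR) (hUZt : S_UZt) (hXtE : S_XtE) (hXtP : S_XtP) : S_Univ := by
  intro hRH γ hγ w hw R ε hε
  set Xr : ℝ → ℂ := fun x => GC (fun j => γ j ^ 2) ((x : ℂ) ^ 2) with hXr
  set W : ℝ → ℝ := fun x => (1 + x ^ 2 / γ 0 ^ 2) * Gm γ x ^ 2 with hW
  set c : ℝ := ∫ x : ℝ, ‖Xr x‖ ^ 2 ∂w with hc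
  have hc0 : 0 < c := hw.pos
  have hXi : Integrable (fun x : ℝ => ‖Xr x‖ ^ 2) w := by
    by_contra h
    rw [hc, integral_undef h] at hc0
    exact lt_irrefl _ hc0
  -- the measure is finite
  have hfin : IsFiniteMeasure w := by
    have h1 := hw.int.measure_norm_ge_lt_top (ε := 1) one_pos
    have h2 : {x : ℝ | 1 ≤ ‖(1 + x ^ 2) * Gm γ x ^ 2‖} = Set.univ := by
      ext x
      simp only [Set.mem_ofPred_eq, Set.mem_univ, iff_true]
      have h3 := one_le_Gm γ x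
      have h4 : 1 ≤ Gm γ x ^ 2 := one_le_pow₀ h3
      have h5 : 1 ≤ 1 + x ^ 2 := by nlinarith [sq_nonneg x]
      rw [Real.norm_of_nonneg (by positivity)]
      nlinarith
    rw [h2] at h1
    exact ⟨h1⟩
  set M : ℝ := w.real Set.univ with hM
  have hM0 : 0 ≤ M := measureReal_nonneg
  -- the dominating function
  have hWi : Integrable W w := by
    have hcont : Continuous fun x : ℝ => (1 + x ^ 2 / γ 0 ^ 2) / (1 + x ^ 2) := by
      refine Continuous.div (by fun_prop) (by fun_prop) fun x => ?_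
      positivity
    have e : W = fun x => (1 + x ^ 2 / γ 0 ^ 2) / (1 + x ^ 2) * ((1 + x ^ 2) * Gm γ x ^ 2) := by
      funext x
      have : (1 : ℝ) + x ^ 2 ≠ 0 := by positivity
      rw [hW]
      field_simp
    rw [e]
    refine hw.int.bdd_mul (c := max 1 (1 / γ 0 ^ 2)) hcont.aestronglyMeasurable (Eventually.of_forall fun x => ?_)
    rw [Real.norm_of_nonneg (by positivity), div_le_iff₀ (by positivity)]
    have h1 : (1 : ℝ) ≤ max 1 (1 / γ 0 ^ 2) := le_max_left _ _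
    have h2 : 1 / γ 0 ^ 2 ≤ max 1 (1 / γ 0 ^ 2) := le_max_right _ _
    have h3 : x ^ 2 / γ 0 ^ 2 = 1 / γ 0 ^ 2 * x ^ 2 := by ring
    rw [h3]
    nlinarith [sq_nonneg x, mul_le_mul_of_nonneg_right h2 (sq_nonneg x)]
  have hWn : ∀ x, 0 ≤ W x := fun x => by rw [hW]; positivity
  -- the tail
  obtain ⟨T, hT0, hT⟩ := tail_small (hXi.add hWi) (κ := c / 32) (by positivity)
  set S : Set ℝ := {x : ℝ | T < |x|} with hS
  have hSm : MeasurableSet S := measurableSet_lt measurable_const measurable_id.abs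
  have hT1 : ∫ x in S, ‖Xr x‖ ^ 2 ∂w ≤ c / 32 := by
    refine le_trans ?_ hT
    refine setIntegral_mono hXi.integrableOn (hXi.add hWi).integrableOn fun x => ?_
    show ‖Xr x‖ ^ 2 ≤ ‖Xr x‖ ^ 2 + W x
    linarith [hWn x]
  have hT2 : ∫ x in S, W x ∂w ≤ c / 32 := by
    refine le_trans ?_ hT
    refine setIntegral_mono hWi.integrableOn (hXi.add hWi).integrableOn fun x => ?_
    show W x ≤ ‖Xr x‖ ^ 2 + W x
    have : 0 ≤ ‖Xr x‖ ^ 2 := by positivity
    linarith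
  -- the small number
  obtain ⟨η, hη0, hη1, hη2⟩ : ∃ η : ℝ, 0 < η ∧ η * (64 * (M + 1)) ≤ c ∧ η ≤ ε ^ 2 / 16 := by
    refine ⟨min (c / (64 * (M + 1))) (ε ^ 2 / 16), lt_min (by positivity) (by positivity), ?_, min_le_right _ _⟩
    calc min (c / (64 * (M + 1))) (ε ^ 2 / 16) * (64 * (M + 1)) ≤ c / (64 * (M + 1)) * (64 * (M + 1)) :=
          mul_le_mul_of_nonneg_right (min_le_left _ _) (by positivity)
      _ = c := by field_simp
  obtain ⟨K, A, hKA⟩ := hUZt hRH γ hγ (max R T) η hη0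
  refine ⟨K, max A 1, fun a ν ha hν f hf => ?_⟩
  have ha0 : 0 < a := lt_of_lt_of_le one_pos ((le_max_right _ _).trans ha)
  have haA : A ≤ a := (le_max_left _ _).trans ha
  obtain ⟨F0, hF0, hF01, hF0min⟩ := hXtE hRH a ν ha0
  have hδ : 0 < Y23.QQ F0 := (hXtP hRH a ν F0 ha0 ⟨hF0, hF01, hF0min⟩).1
  set δ := Y23.QQ F0 with hδd
  have hcont : ∀ g : ℝ → ℂ, Y23.G.F.Hn a ν g → Continuous fun x : ℝ => ‖Y23.TT g (Complex.I * x)‖ ^ 2 := by
    intro g hg
    have h1 : Continuous (Y23.TT g) := (Y23.differentiable_TT hg.1).continuous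
    exact ((h1.comp (by fun_prop)).norm).pow 2
  have hS1 : ∀ x : ℝ, x ∉ S → ‖(x : ℂ)‖ ≤ max R T := by
    intro x hx
    rw [Complex.norm_real, Real.norm_eq_abs]
    exact (not_lt.1 hx).trans (le_max_right _ _)
  -- the extremal function
  have hK0 : ∀ x : ℝ, ‖Y23.TT F0 (Complex.I * x)‖ ^ 2 ≤ W x := by
    intro x
    have h1 := hKR hRH γ hγ a ν δ ha0 hF0min F0 hF0 x
    rw [← hδd, mul_comm _ δ] at h1
    exact le_of_mul_le_mul_left h1 hδ
  have hU0 : ∀ x : ℝ, x ∉ S → ‖Y23.TT F0 (Complex.I * x) - Xr x‖ ^ 2 ≤ η := by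
    intro x hx
    have h1 := hKA a ν haA hν δ hF0min F0 hF0 x (hS1 x hx)
    rw [hF01, one_mul, ← hδd, mul_comm η δ] at h1
    exact le_of_mul_le_mul_left h1 hδ
  have hF0i : Integrable (fun x : ℝ => ‖Y23.TT F0 (Complex.I * x)‖ ^ 2) w := by
    refine hWi.mono (hcont F0 hF0).aestronglyMeasurable (Eventually.of_forall fun x => ?_)
    rw [Real.norm_of_nonneg (by positivity), Real.norm_of_nonneg (hWn x)]
    exact hK0 x
  have hN0 : c / 4 ≤ Nw w F0 := by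
    have h1 : ∀ x, ‖Xr x‖ ^ 2 ≤ S.indicator (fun x => ‖Xr x‖ ^ 2) x +
        (2 * ‖Y23.TT F0 (Complex.I * x)‖ ^ 2 + 2 * η) := by
      intro x
      by_cases hx : x ∈ S
      · rw [Set.indicator_of_mem hx]
        have : 0 ≤ 2 * ‖Y23.TT F0 (Complex.I * x)‖ ^ 2 + 2 * η := by positivity
        linarith
      · rw [Set.indicator_of_notMem hx, zero_add]
        have h2 := sq_add_le (Xr x) (Y23.TT F0 (Complex.I * x))
        rw [norm_sub_rev] at h2
        have h3 := hU0 x hx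
        linarith
    have i1 : Integrable (fun x => S.indicator (fun x => ‖Xr x‖ ^ 2) x) w := hXi.indicator hSm
    have i2 : Integrable (fun x : ℝ => 2 * ‖Y23.TT F0 (Complex.I * x)‖ ^ 2) w := hF0i.const_mul 2
    have i3 : Integrable (fun _ : ℝ => 2 * η) w := integrable_const _
    have i4 : Integrable (fun x : ℝ => 2 * ‖Y23.TT F0 (Complex.I * x)‖ ^ 2 + 2 * η) w := i2.add i3
    have h2 : c ≤ ∫ x, (S.indicator (fun x => ‖Xr x‖ ^ 2) x +
        (2 * ‖Y23.TT F0 (Complex.I * x)‖ ^ 2 + 2 * η)) ∂w := integral_mono hXi (i1.add i4) h1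
    rw [integral_add i1 i4, integral_add i2 i3, integral_indicator hSm, integral_const_mul,
      integral_const, smul_eq_mul] at h2
    change c ≤ _ + (2 * Nw w F0 + M * (2 * η)) at h2
    nlinarith
  -- the minimiser
  obtain ⟨hf1, hfN, hfmin⟩ := hf
  set N := Nw w f with hNd
  have hfi : Integrable (fun x : ℝ => ‖Y23.TT f (Complex.I * x)‖ ^ 2) w := by
    by_contra h
    rw [hNd, Nw, integral_undef h] at hfN
    exact lt_irrefl _ hfN
  have hQ0 : 0 ≤ Y23.QQ f := by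
    have h1 := hKR hRH γ hγ a ν δ ha0 hF0min f hf1 0
    have e : (1 + (0 : ℝ) ^ 2 / γ 0 ^ 2) * 1 ^ 2 = 1 := by norm_num
    rw [Gm_zero, e, one_mul] at h1
    have h2 : 0 ≤ δ * ‖Y23.TT f (Complex.I * ((0 : ℝ) : ℂ))‖ ^ 2 := by positivity
    exact h2.trans h1
  have hQ : Y23.QQ f * c ≤ 4 * δ * N := by
    have h1 := hfmin F0 hF0
    rw [← hδd] at h1
    have h2 : Y23.QQ f * (c / 4) ≤ Y23.QQ f * Nw w F0 := mul_le_mul_of_nonneg_left hN0 hQ0
    linarith
  have hQ' : Y23.QQ f ≤ δ * (4 * N / c) := by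
    rw [← mul_div_assoc, le_div_iff₀ hc0]
    linarith
  have hKf : ∀ x : ℝ, ‖Y23.TT f (Complex.I * x)‖ ^ 2 ≤ W x * (4 * N / c) := by
    intro x
    have h1 := hKR hRH γ hγ a ν δ ha0 hF0min f hf1 x
    have h2 : W x * Y23.QQ f ≤ W x * (δ * (4 * N / c)) := mul_le_mul_of_nonneg_left hQ' (hWn x)
    have h3 : δ * ‖Y23.TT f (Complex.I * x)‖ ^ 2 ≤ δ * (W x * (4 * N / c)) := by
      refine h1.trans (h2.trans (le_of_eq ?_))
      ring
    exact le_of_mul_le_mul_left h3 hδ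
  have hUf : ∀ z : ℂ, ‖z‖ ≤ max R T → ‖Y23.TT f (Complex.I * z) - Y23.TT f 0 * GC (fun j => γ j ^ 2) (z ^ 2)‖ ^ 2 ≤
      η * (4 * N / c) := by
    intro z hz
    have h1 := hKA a ν haA hν δ hF0min f hf1 z hz
    have h2 : η * Y23.QQ f ≤ η * (δ * (4 * N / c)) := mul_le_mul_of_nonneg_left hQ' hη0.le
    have h3 : δ * ‖Y23.TT f (Complex.I * z) - Y23.TT f 0 * GC (fun j => γ j ^ 2) (z ^ 2)‖ ^ 2 ≤
        δ * (η * (4 * N / c)) := by
      refine h1.trans (h2.trans (le_of_eq ?_))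
      ring
    exact le_of_mul_le_mul_left h3 hδ
  have hmain : 3 * N / 8 ≤ c * ‖Y23.TT f 0‖ ^ 2 := by
    have h1 : ∀ x : ℝ, ‖Y23.TT f (Complex.I * x)‖ ^ 2 ≤ S.indicator W x * (4 * N / c) +
        (2 * ‖Y23.TT f 0‖ ^ 2 * ‖Xr x‖ ^ 2 + 2 * (η * (4 * N / c))) := by
      intro x
      by_cases hx : x ∈ S
      · rw [Set.indicator_of_mem hx]
        have h2 : 0 ≤ 2 * ‖Y23.TT f 0‖ ^ 2 * ‖Xr x‖ ^ 2 + 2 * (η * (4 * N / c)) := by positivity
        linarith [hKf x]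
      · rw [Set.indicator_of_notMem hx, zero_mul, zero_add]
        have h2 := sq_add_le (Y23.TT f (Complex.I * x)) (Y23.TT f 0 * Xr x)
        have h3 := hUf x (hS1 x hx)
        rw [norm_mul, mul_pow] at h2
        have h4 : ‖Y23.TT f (Complex.I * x) - Y23.TT f 0 * Xr x‖ ^ 2 ≤ η * (4 * N / c) := h3
        linarith
    have hi1 : Integrable (fun x => S.indicator W x * (4 * N / c)) w := (hWi.indicator hSm).mul_const _
    have hi2 : Integrable (fun x => 2 * ‖Y23.TT f 0‖ ^ 2 * ‖Xr x‖ ^ 2) w := hXi.const_mul _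
    have hi3 : Integrable (fun _ : ℝ => 2 * (η * (4 * N / c))) w := integrable_const _
    have hi4 : Integrable (fun x => 2 * ‖Y23.TT f 0‖ ^ 2 * ‖Xr x‖ ^ 2 + 2 * (η * (4 * N / c))) w := hi2.add hi3
    have h2 : N ≤ ∫ x, (S.indicator W x * (4 * N / c) +
        (2 * ‖Y23.TT f 0‖ ^ 2 * ‖Xr x‖ ^ 2 + 2 * (η * (4 * N / c)))) ∂w :=
      integral_mono hfi (hi1.add hi4) h1
    rw [integral_add hi1 hi4, integral_add hi2 hi3,
      integral_mul_const, integral_indicator hSm, integral_const_mul, integral_const, smul_eq_mul] at h2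
    change N ≤ _ + (2 * ‖Y23.TT f 0‖ ^ 2 * c + M * (2 * (η * (4 * N / c)))) at h2
    have h3 : (∫ x in S, W x ∂w) * (4 * N / c) ≤ N / 8 := by
      calc (∫ x in S, W x ∂w) * (4 * N / c) ≤ c / 32 * (4 * N / c) :=
            mul_le_mul_of_nonneg_right hT2 (by positivity)
        _ = N / 8 := by field_simp; norm_num
    have h4 : M * (2 * (η * (4 * N / c))) ≤ N / 8 := by
      have h5 : M * (2 * (η * (4 * N / c))) = (η * (64 * M)) * (N / (8 * c)) := by
        field_simp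
        ring
      rw [h5]
      calc (η * (64 * M)) * (N / (8 * c)) ≤ c * (N / (8 * c)) :=
            mul_le_mul_of_nonneg_right (by nlinarith) (by positivity)
        _ = N / 8 := by field_simp
    linarith
  have hf0 : 0 < ‖Y23.TT f 0‖ ^ 2 := by
    by_contra h
    have h1 : ‖Y23.TT f 0‖ ^ 2 = 0 := le_antisymm (not_lt.1 h) (by positivity)
    rw [h1, mul_zero] at hmain
    linarith
  have hf00 : Y23.TT f 0 ≠ 0 := by
    intro h
    rw [h, norm_zero] at hf0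
    norm_num at hf0
  refine ⟨hf00, fun z hz => ?_⟩
  have h1 := hUf z (hz.trans (le_max_left _ _))
  have h2 : Y23.TT f (Complex.I * z) / Y23.TT f 0 - GC (fun j => γ j ^ 2) (z ^ 2) =
      (Y23.TT f (Complex.I * z) - Y23.TT f 0 * GC (fun j => γ j ^ 2) (z ^ 2)) / Y23.TT f 0 := by
    field_simp
  rw [h2, norm_div]
  have h3 : (‖Y23.TT f (Complex.I * z) - Y23.TT f 0 * GC (fun j => γ j ^ 2) (z ^ 2)‖ / ‖Y23.TT f 0‖) ^ 2 ≤ ε ^ 2 := by
    rw [div_pow, div_le_iff₀ hf0]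
    refine h1.trans ?_
    have h4 : 4 * N / c ≤ 32 / 3 * ‖Y23.TT f 0‖ ^ 2 := by
      rw [div_le_iff₀ hc0]
      linarith
    calc η * (4 * N / c) ≤ ε ^ 2 / 16 * (32 / 3 * ‖Y23.TT f 0‖ ^ 2) :=
          mul_le_mul hη2 h4 (by positivity) (by positivity)
      _ ≤ ε ^ 2 * ‖Y23.TT f 0‖ ^ 2 := by
        have : 0 ≤ ε ^ 2 * ‖Y23.TT f 0‖ ^ 2 := by positivity
        linarith
  exact (pow_le_pow_iff_left₀ (by positivity) hε.le two_ne_zero).1 h3

end Pool.Agent.Q285.EX
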